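import Pool.Agent.H62.Local2

/-!
Localisation of the sup norm of the Moebius exponential sum.
-/

namespace Pool.Agent.Results.MP_b6b996_nt.Localisation

/-- The exponential sum `F_R (x) = ∑_{n ≤ R} μ(n) e(n x)`. -/
noncomputable def F (R : ℕ) (x : ℝ) : ℂ :=
  ∑ n ∈ Finset.Icc 1 R, ((ArithmeticFunction.moebius n : ℤ) : ℂ) *
    Complex.exp (2 * Real.pi * Complex.I * n * x)

/-- The sup norm of `F_n` is bounded by a constant times the maximum of `|F_R|`, `R ≤ C n`, on an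
arc of half-width `δ > 1/24` around `1/4`, and also on suitable unions of `D` arcs of arbitrarily
small total length. In particular the growth exponent is decided on such sets. -/
theorem result :
    (∀ δ : ℝ, 1 / 24 < δ → ∃ C : ℕ, ∀ (n : ℕ) (M : ℝ),
      (∀ R : ℕ, R ≤ C * n → ∀ y ∈ Set.Icc (1 / 4 - δ) (1 / 4 + δ), ‖F R y‖ ≤ M) →
        ∀ x : ℝ, ‖F n x‖ ≤ C * M) ∧
    (∀ η : ℝ, 0 < η → ∃ (D : ℕ) (ℓ : ℝ), 0 < D ∧ 0 < ℓ ∧ D * ℓ ≤ η ∧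
      ∃ C : ℕ, ∀ (n : ℕ) (M : ℝ),
        (∀ R : ℕ, R ≤ C * n → ∀ j : ℕ, j < D →
          ∀ y ∈ Set.Icc ((j : ℝ) / D) ((j : ℝ) / D + ℓ), ‖F R y‖ ≤ M) →
        ∀ x : ℝ, ‖F n x‖ ≤ C * M) ∧
    (∀ δ : ℝ, 1 / 24 < δ → ∀ a : ℝ, 0 ≤ a →
      (∃ K : ℝ, ∀ R : ℕ, 1 ≤ R → ∀ y ∈ Set.Icc (1 / 4 - δ) (1 / 4 + δ),
        ‖F R y‖ ≤ K * (R : ℝ) ^ a) →
      ∃ K : ℝ, ∀ R : ℕ, 1 ≤ R → ∀ x : ℝ, ‖F R x‖ ≤ K * (R : ℝ) ^ a) := by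
  refine ⟨fun δ hδ => Pool.Agent.H62.arc_final hδ, fun η hη => Pool.Agent.H62.small_set hη,
    fun δ hδ a ha hK => ?_⟩
  obtain ⟨C, hC⟩ := Pool.Agent.H62.arc_final hδ
  exact Pool.Agent.H62.exponent_transfer (P := fun y => y ∈ Set.Icc (1 / 4 - δ) (1 / 4 + δ))
    hC ha hK

end Pool.Agent.Results.MP_b6b996_nt.Localisation
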